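import Mathlib

set_option autoImplicit false

/-!
# MP_e76a7e_co

For every infinite cardinal `a` there is a graph `G` with chromatic number at least `a⁺`
which contains no subdivision of the complete graph `K_{a⁺}`.

The graph is the comparability graph of the tree of all injective functions from an ordinal
`< a⁺` into a set of size `a`, ordered by extension.
-/

open Cardinal Set

universe u

namespace Pool.Agent.Results.MP_e76a7e_co.NoTopMinor

/-- The chromatic number of a graph as a cardinal: the least cardinal `κ` such that the graph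
has a proper colouring with a set of `κ` colours (that is, the vertex set is a union of `κ`
independent sets). -/
noncomputable def chromaticCardinal {V : Type u} (G : SimpleGraph V) : Cardinal.{u} :=
  sInf {κ : Cardinal.{u} | ∃ C : Type u, #C = κ ∧ Nonempty (G.Coloring C)}

/-- `v` is an inner vertex of the walk `p` from `x` to `y`. -/
def IsInner {V : Type u} {G : SimpleGraph V} {x y : V} (p : G.Walk x y) (v : V) : Prop :=
  v ∈ p.support ∧ v ≠ x ∧ v ≠ y

/-- `G` contains a subdivision of the complete graph on `κ` vertices: there are a set `B` of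
`κ` branch vertices and, for any two distinct members `x, y` of `B`, a path `P x y` in `G`
from `x` to `y`, such that no path has an inner vertex in `B` and the paths of two different
unordered pairs have no common inner vertex. -/
def ContainsSubdivision {V : Type u} (G : SimpleGraph V) (κ : Cardinal.{u}) : Prop :=
  ∃ (B : Set V) (P : ∀ x y : V, x ∈ B → y ∈ B → x ≠ y → G.Walk x y),
    #B = κ ∧
    (∀ x y (hx : x ∈ B) (hy : y ∈ B) (h : x ≠ y), (P x y hx hy h).IsPath) ∧
    (∀ x y (hx : x ∈ B) (hy : y ∈ B) (h : x ≠ y) (v : V),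
      IsInner (P x y hx hy h) v → v ∉ B) ∧
    (∀ x y (hx : x ∈ B) (hy : y ∈ B) (h : x ≠ y) x' y' (hx' : x' ∈ B) (hy' : y' ∈ B)
      (h' : x' ≠ y'), s(x, y) ≠ s(x', y') →
      ∀ v : V, IsInner (P x y hx hy h) v → ¬ IsInner (P x' y' hx' hy' h') v)

section Tree

variable (W : Type u) [LinearOrder W] (A : Type u)

/-- A node of the tree: an injective function from a proper initial segment `{x | x < len}` of
`W` to `A`. -/
@[ext] structure Node where
  len : W
  fn : ∀ x : W, x < len → A
  inj : ∀ x (hx : x < len) y (hy : y < len), fn x hx = fn y hy → x = y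

variable {W A}

/-- `s` is a proper restriction of `t`. -/
def Node.Below (s t : Node W A) : Prop :=
  ∃ h : s.len < t.len, ∀ x (hx : x < s.len), s.fn x hx = t.fn x (hx.trans h)

theorem Node.Below.irrefl (s : Node W A) : ¬ s.Below s := fun h => lt_irrefl _ h.1

theorem Node.Below.trans {s t r : Node W A} (h : s.Below t) (h' : t.Below r) : s.Below r :=
  ⟨h.1.trans h'.1, fun x hx => (h.2 x hx).trans (h'.2 x _)⟩

theorem Node.eq_of {s t : Node W A} (hl : s.len = t.len)
    (hf : ∀ x (hx : x < s.len) (hx' : x < t.len), s.fn x hx = t.fn x hx') : s = t := by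
  cases s with
  | mk l f i =>
    cases t with
    | mk l' f' i' =>
      simp only at hl
      subst hl
      have : f = f' := by
        funext x hx
        exact hf x hx hx
      subst this
      rfl

/-- Two restrictions of the same node are comparable. -/
theorem Node.comparable {s t u : Node W A} (hs : s = u ∨ s.Below u) (ht : t = u ∨ t.Below u) :
    s.Below t ∨ s = t ∨ t.Below s := by
  rcases hs with rfl | hs
  · rcases ht with rfl | ht
    · exact Or.inr (Or.inl rfl)
    · exact Or.inr (Or.inr ht)
  · rcases ht with rfl | ht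
    · exact Or.inl hs
    · rcases lt_trichotomy s.len t.len with h | h | h
      · left
        exact ⟨h, fun x hx => (hs.2 x hx).trans (ht.2 x _).symm⟩
      · right; left
        exact Node.eq_of h fun x hx hx' => (hs.2 x hx).trans (ht.2 x hx').symm
      · right; right
        exact ⟨h, fun x hx => (ht.2 x hx).trans (hs.2 x _).symm⟩

variable (W A)

/-- The comparability graph of the tree. -/
def treeGraph : SimpleGraph (Node W A) where
  Adj s t := s.Below t ∨ t.Below s
  symm := ⟨fun _ _ h => h.symm⟩
  loopless := ⟨fun s h => by rcases h with h | h <;> exact Node.Below.irrefl s h⟩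

variable {W A}

/-- A walk that starts weakly above `x` and ends at a node not weakly above `x` passes through
a proper restriction of `x`. -/
theorem exists_below_of_walk {x : Node W A} {s t : Node W A} (p : (treeGraph W A).Walk s t)
    (hs : s = x ∨ x.Below s) (ht : ¬ (t = x ∨ x.Below t)) :
    ∃ v ∈ p.support, v.Below x := by
  induction p with
  | nil => exact absurd hs ht
  | @cons s r t hadj p ih =>
    by_cases hr : r = x ∨ x.Below r
    · obtain ⟨v, hv, hvx⟩ := ih hr ht
      exact ⟨v, List.mem_cons_of_mem _ hv, hvx⟩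
    · have hadj' : s.Below r ∨ r.Below s := hadj
      rcases hadj' with h | h
      · exfalso
        apply hr
        right
        rcases hs with rfl | hs
        · exact h
        · exact hs.trans h
      · refine ⟨r, List.mem_cons_of_mem _ p.start_mem_support, ?_⟩
        have hx' : x = s ∨ x.Below s := by
          rcases hs with rfl | hs
          · exact Or.inl rfl
          · exact Or.inr hs
        rcases Node.comparable (Or.inr h) hx' with h1 | h1 | h1
        · exact h1
        · exact absurd (Or.inl h1) hr
        · exact absurd (Or.inr h1) hr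

/-- Any colouring of the tree graph by a set that injects into `A` gives an injection of `W`
into `A`. -/
theorem exists_injective_of_coloring [WellFoundedLT W] [Nonempty A]
    (n : Node W A → A) (hn : ∀ s t : Node W A, s.Below t → n s ≠ n t) :
    ∃ g : W → A, Function.Injective g := by
  classical
  let F : ∀ w : W, (∀ y : W, y < w → A) → A := fun w prev =>
    if h : (∀ x (hx : x < w) y (hy : y < w), prev x hx = prev y hy → x = y) then
      n ⟨w, prev, h⟩ else Classical.arbitrary A
  let g : W → A := (wellFounded_lt (α := W)).fix F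
  have hg : ∀ w, g w = F w (fun y _ => g y) := fun w => WellFounded.fix_eq _ F w
  have hinj : ∀ w, ∀ x, x < w → ∀ y, y < w → g x = g y → x = y := by
    intro w
    induction w using WellFoundedLT.induction with
    | ind w ih =>
      have key : ∀ x y, x < y → y < w → g x ≠ g y := by
        intro x y hxy hyw
        have hx : g x = n ⟨x, fun z _ => g z, fun a ha b hb => ih x (hxy.trans hyw) a ha b hb⟩ := by
          rw [hg x]
          exact dif_pos (fun a ha b hb => ih x (hxy.trans hyw) a ha b hb)
        have hy : g y = n ⟨y, fun z _ => g z, fun a ha b hb => ih y hyw a ha b hb⟩ := by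
          rw [hg y]
          exact dif_pos (fun a ha b hb => ih y hyw a ha b hb)
        rw [hx, hy]
        exact hn _ _ ⟨hxy, fun _ _ => rfl⟩
      intro x hx y hy hxy
      rcases lt_trichotomy x y with h | h | h
      · exact absurd hxy (key x y h hy)
      · exact h
      · exact absurd hxy.symm (key y x h hx)
  refine ⟨g, ?_⟩
  have key : ∀ x y, x < y → g x ≠ g y := by
    intro x y hxy
    have hx : g x = n ⟨x, fun z _ => g z, fun a ha b hb => hinj x a ha b hb⟩ := by
      rw [hg x]
      exact dif_pos (fun a ha b hb => hinj x a ha b hb)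
    have hy : g y = n ⟨y, fun z _ => g z, fun a ha b hb => hinj y a ha b hb⟩ := by
      rw [hg y]
      exact dif_pos (fun a ha b hb => hinj y a ha b hb)
    rw [hx, hy]
    exact hn _ _ ⟨hxy, fun _ _ => rfl⟩
  intro x y hxy
  rcases lt_trichotomy x y with h | h | h
  · exact absurd hxy (key x y h)
  · exact h
  · exact absurd hxy.symm (key y x h)

/-- The proper restrictions of a node inject into the initial segment of its length. -/
theorem mk_below_le (x : Node W A) : #{v : Node W A | v.Below x} ≤ #(Set.Iio x.len) := by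
  refine mk_le_of_injective (f := fun v : {v : Node W A | v.Below x} =>
    (⟨v.1.len, v.2.1⟩ : Set.Iio x.len)) ?_
  rintro ⟨v, hv⟩ ⟨w, hw⟩ h
  have h' : v.len = w.len := congrArg Subtype.val h
  apply Subtype.ext
  exact Node.eq_of h' fun z hz hz' => (hv.2 z hz).trans (hw.2 z hz').symm

/-- An infinite set of branch vertices of size larger than all initial segments of `W` is a
chain. -/
theorem chain_of_subdivision {κ : Cardinal.{u}} (hκ : ℵ₀ ≤ κ)
    (hW : ∀ w : W, #(Set.Iio w) < κ)
    (B : Set (Node W A))
    (P : ∀ x y : Node W A, x ∈ B → y ∈ B → x ≠ y → (treeGraph W A).Walk x y)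
    (hB : #B = κ)
    (hin : ∀ x y (hx : x ∈ B) (hy : y ∈ B) (h : x ≠ y) (v : Node W A),
      IsInner (P x y hx hy h) v → v ∉ B)
    (hdis : ∀ x y (hx : x ∈ B) (hy : y ∈ B) (h : x ≠ y) x' y' (hx' : x' ∈ B) (hy' : y' ∈ B)
      (h' : x' ≠ y'), s(x, y) ≠ s(x', y') →
      ∀ v : Node W A, IsInner (P x y hx hy h) v → ¬ IsInner (P x' y' hx' hy' h') v)
    {x y : Node W A} (hx : x ∈ B) (hy : y ∈ B) : x.Below y ∨ x = y ∨ y.Below x := by
  classical
  by_contra hcon
  push Not at hcon
  obtain ⟨hxy1, hxy, hyx⟩ := hcon
  have hy' : ¬ (y = x ∨ x.Below y) := by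
    rintro (h | h)
    · exact hxy h.symm
    · exact hxy1 h
  -- for each other branch vertex, a predecessor of `x`
  have hch : ∀ z : Node W A, ∀ hz : z ∈ B, ∀ hzx : z ≠ x, ∀ hzy : z ≠ y,
      ∃ v : Node W A, v.Below x ∧
        (v = z ∨ IsInner (P x z hx hz hzx.symm) v ∨ IsInner (P z y hz hy hzy) v) := by
    intro z hz hzx hzy
    by_cases hzz : z = x ∨ x.Below z
    · obtain ⟨v, hv, hvx⟩ := exists_below_of_walk (P z y hz hy hzy) hzz hy'
      refine ⟨v, hvx, ?_⟩
      by_cases hvz : v = z
      · exact Or.inl hvz
      · right; right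
        refine ⟨hv, hvz, ?_⟩
        rintro rfl
        exact hyx hvx
    · obtain ⟨v, hv, hvx⟩ := exists_below_of_walk (P x z hx hz hzx.symm) (Or.inl rfl) hzz
      refine ⟨v, hvx, ?_⟩
      by_cases hvz : v = z
      · exact Or.inl hvz
      · right; left
        refine ⟨hv, ?_, hvz⟩
        rintro rfl
        exact Node.Below.irrefl _ hvx
  choose f hf1 hf2 using hch
  let S : Set (Node W A) := B \ {x, y}
  have hS : ∀ z : S, z.1 ∈ B ∧ z.1 ≠ x ∧ z.1 ≠ y := by
    rintro ⟨z, hz⟩
    simp only [S, mem_sdiff, mem_insert_iff, mem_singleton_iff, not_or] at hz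
    exact ⟨hz.1, hz.2.1, hz.2.2⟩
  let φ : S → {v : Node W A | v.Below x} := fun z =>
    ⟨f z.1 (hS z).1 (hS z).2.1 (hS z).2.2, hf1 _ _ _ _⟩
  have hφ : Function.Injective φ := by
    intro z z' hzz
    by_contra hne
    have hne' : z.1 ≠ z'.1 := fun h => hne (Subtype.ext h)
    obtain ⟨hz1, hz2, hz3⟩ := hS z
    obtain ⟨hz1', hz2', hz3'⟩ := hS z'
    have hv : f z.1 hz1 hz2 hz3 = f z'.1 hz1' hz2' hz3' := congrArg Subtype.val hzz
    have h1 := hf2 z.1 hz1 hz2 hz3
    have h2 := hf2 z'.1 hz1' hz2' hz3'
    rw [hv] at h1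
    generalize f z'.1 hz1' hz2' hz3' = v at h1 h2
    rcases h1 with h1 | h1 | h1
    · rcases h2 with h2 | h2 | h2
      · exact hne' (h1.symm.trans h2)
      · exact hin _ _ _ _ _ _ h2 (h1 ▸ hz1)
      · exact hin _ _ _ _ _ _ h2 (h1 ▸ hz1)
    · rcases h2 with h2 | h2 | h2
      · exact hin _ _ _ _ _ _ h1 (h2 ▸ hz1')
      · refine hdis _ _ _ _ _ _ _ _ _ _ ?_ _ h1 h2
        intro h
        rcases Sym2.eq_iff.1 h with ⟨-, h⟩ | ⟨h, -⟩
        · exact hne' h
        · exact hz2' h.symm
      · refine hdis _ _ _ _ _ _ _ _ _ _ ?_ _ h1 h2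
        intro h
        rcases Sym2.eq_iff.1 h with ⟨h, -⟩ | ⟨h, -⟩
        · exact hz2' h.symm
        · exact hxy h
    · rcases h2 with h2 | h2 | h2
      · exact hin _ _ _ _ _ _ h1 (h2 ▸ hz1')
      · refine hdis _ _ _ _ _ _ _ _ _ _ ?_ _ h1 h2
        intro h
        rcases Sym2.eq_iff.1 h with ⟨h, -⟩ | ⟨-, h⟩
        · exact hz2 h
        · exact hxy h.symm
      · refine hdis _ _ _ _ _ _ _ _ _ _ ?_ _ h1 h2
        intro h
        rcases Sym2.eq_iff.1 h with ⟨h, -⟩ | ⟨h, -⟩
        · exact hne' h
        · exact hz3 h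
  have hcard : #S ≤ #(Set.Iio x.len) := (mk_le_of_injective hφ).trans (mk_below_le x)
  have hlt : #S < κ := hcard.trans_lt (hW _)
  have hfin : #({x, y} : Set (Node W A)) < κ :=
    ((Set.toFinite _).lt_aleph0).trans_le hκ
  have hsub : B ⊆ S ∪ {x, y} := by
    intro b hb
    by_cases h : b ∈ ({x, y} : Set (Node W A))
    · exact Or.inr h
    · exact Or.inl ⟨hb, h⟩
  have : #B < κ := (mk_le_mk_of_subset hsub).trans_lt
    ((mk_union_le _ _).trans_lt (add_lt_of_lt hκ hlt hfin))
  exact absurd hB this.ne

/-- If the branch vertices form a chain of size larger than all closed initial segments of `W`,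
then `W` injects into `A`. -/
theorem exists_injective_of_chain {κ : Cardinal.{u}} (hW : ∀ w : W, #(Set.Iic w) < κ)
    (B : Set (Node W A)) (hB : #B = κ)
    (hch : ∀ x ∈ B, ∀ y ∈ B, x.Below y ∨ x = y ∨ y.Below x) :
    ∃ g : W → A, Function.Injective g := by
  classical
  have hub : ∀ w : W, ∃ b ∈ B, w < b.len := by
    intro w
    by_contra hcon
    push Not at hcon
    have : #B ≤ #(Set.Iic w) := by
      refine mk_le_of_injective (f := fun b : B => (⟨b.1.len, hcon b.1 b.2⟩ : Set.Iic w)) ?_
      rintro ⟨b, hb⟩ ⟨c, hc⟩ h'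
      have h : b.len = c.len := congrArg Subtype.val h'
      rcases hch b hb c hc with h1 | h1 | h1
      · exact absurd h h1.1.ne
      · exact Subtype.ext h1
      · exact absurd h.symm h1.1.ne
    exact absurd hB (this.trans_lt (hW w)).ne
  choose b hbB hb using hub
  have hco : ∀ c ∈ B, ∀ d ∈ B, ∀ w (hc : w < c.len) (hd : w < d.len), c.fn w hc = d.fn w hd := by
    intro c hc d hd w h1 h2
    rcases hch c hc d hd with h | h | h
    · exact h.2 w h1
    · subst h; rfl
    · exact (h.2 w h2).symm
  refine ⟨fun w => (b w).fn w (hb w), ?_⟩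
  intro v w h
  simp only at h
  rcases lt_trichotomy v w with hvw | hvw | hvw
  · rw [hco (b v) (hbB v) (b w) (hbB w) v (hb v) (hvw.trans (hb w))] at h
    exact (b w).inj _ _ _ _ h
  · exact hvw
  · rw [hco (b w) (hbB w) (b v) (hbB v) w (hb w) (hvw.trans (hb v))] at h
    exact (b v).inj _ _ _ _ h

end Tree

/-- **Main theorem.** For every infinite cardinal `a` there is a graph whose chromatic number is
at least `a⁺` and which contains no subdivision of the complete graph on `a⁺` vertices. -/
theorem result (a : Cardinal.{u}) (ha : ℵ₀ ≤ a) :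
    ∃ (V : Type u) (G : SimpleGraph V),
      Order.succ a ≤ chromaticCardinal G ∧ ¬ ContainsSubdivision G (Order.succ a) := by
  classical
  let W : Type u := (Order.succ a).ord.ToType
  let A : Type u := a.out
  have hA : #A = a := mk_out a
  have hWc : #W = Order.succ a := by simp [W]
  have hs : ℵ₀ ≤ Order.succ a := ha.trans (Order.le_succ a)
  have : Nonempty A := by
    rw [← mk_ne_zero_iff, hA]
    exact (aleph0_pos.trans_le ha).ne'
  have hIio : ∀ w : W, #(Set.Iio w) < Order.succ a := fun w => mk_Iio_toType_ord_lt w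
  have hIic : ∀ w : W, #(Set.Iic w) < Order.succ a := by
    intro w
    have : (Set.Iic w) ⊆ Set.Iio w ∪ {w} := by
      intro x hx
      rcases lt_or_eq_of_le (show x ≤ w from hx) with h | h
      · exact Or.inl h
      · exact Or.inr h
    exact (mk_le_mk_of_subset this).trans_lt ((mk_union_le _ _).trans_lt
      (add_lt_of_lt hs (hIio w) (((Set.toFinite _).lt_aleph0).trans_le hs)))
  have hno : ¬ ∃ g : W → A, Function.Injective g := by
    rintro ⟨g, hg⟩
    have := mk_le_of_injective hg
    rw [hWc, hA] at this
    exact absurd (Order.lt_succ a) (not_lt.2 this)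
  refine ⟨Node W A, treeGraph W A, ?_, ?_⟩
  · rw [Order.succ_le_iff]
    unfold chromaticCardinal
    have hne : {κ : Cardinal.{u} | ∃ C : Type u, #C = κ ∧
        Nonempty ((treeGraph W A).Coloring C)}.Nonempty :=
      ⟨#(Node W A), Node W A, rfl, ⟨SimpleGraph.Coloring.mk id (fun h => h.ne)⟩⟩
    obtain ⟨C, hC, ⟨c⟩⟩ := csInf_mem hne
    rw [← hC]
    by_contra hcon
    push Not at hcon
    rw [← hA] at hcon
    obtain ⟨e⟩ := hcon
    apply hno
    refine exists_injective_of_coloring (fun t => e (c t)) ?_
    intro s t hst h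
    exact c.valid (show (treeGraph W A).Adj s t from Or.inl hst) (e.injective h)
  · rintro ⟨B, P, hB, -, hin, hdis⟩
    apply hno
    exact exists_injective_of_chain hIic B hB fun x hx y hy =>
      chain_of_subdivision hs hIio B P hB hin hdis hx hy

end Pool.Agent.Results.MP_e76a7e_co.NoTopMinor
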